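import Mathlib
import Pool.Agent.TH221.HM.Final

/-!
# Harmonic maps of the disk with prescribed dilatation are not unique

There are a simply connected domain `Ω ≠ ℂ`, a point `w₀ ∈ Ω`, an analytic `ω : 𝔻 → 𝔻` and two
different univalent sense-preserving harmonic maps `f₁, f₂` of the unit disk onto `Ω`, both
with dilatation `ω`, with `f₁(0) = f₂(0) = w₀` and positive `z`-derivative at `0`.  So the
answer to the question is negative.  The domain is the plane without two parallel closed
half-lines which point in the same direction (so it is even convex in one direction).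

The proof.  Let `Ψ_a(w) = -a w² / 2 + (a + b) w + log w` on the upper half plane.  For `a > 0`
it maps the half plane conformally onto the plane without two rays to the left, at the heights
`0` and `π`.  If `q` is analytic with `Re q ≥ 1` and `W' = q Ψ_a'`, the shear
`F = Re W + i Im Ψ_a` is univalent (the real part of `W` increases along the level curves of
`Im Ψ_a`), its dilatation is `(q - 1) / (q + 1)`, and its image is again the plane without two rays
to the left at the heights `0` and `π`; the ends of the rays are the values of `F` at the zeros `τ₁ < 0 < τ₂`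
of `Ψ_a'` on the real line.  We take `q = 1 + ∑ ν_k K_k` with three point masses on the circle
(`K_k` is the Herglotz kernel, `ν_k > 0`), and the base point `1 + i` of the half plane.
The height of `F(1 + i)` is `b + π / 4` for all `a`, and a rotation of the disk, which depends on
`a`, makes the derivative of `F` positive.  So for two values of `a` we have solutions with the same
dilatation (as a function on the disk) and with the same `w₀` (after a horizontal translation)
and it remains to make the ends of the two rays equal.  These are two equations, linear in the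
three weights `ν_k`, and as the real part of `W` at the ends and at the base point contains only values of
the argument, the coefficients are explicit combinations of `π`, `arctan (1/100)`,
`arctan (1/200)`, `arctan (1/199)` for `b = 299/2`, `a = 26667/26666`, `a = 16667/6666`, and for the
point masses which we choose.  The three vectors of the coefficients are not contained in
a half plane, and so there are positive weights.
-/

open Complex ComplexConjugate

namespace Pool.Agent.Results.MP_35dab7_an.NotUnique

/-- The open unit disk. -/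
def Disk : Set ℂ := Metric.ball 0 1

/-- `f` is a solution for `(Ω, ω, w₀)`: a univalent sense-preserving harmonic map
`f = h + conj g` of the unit disk onto `Ω`, with dilatation `ω = g' / h'`, with `f(0) = w₀` and with
`f_z(0) = h'(0) > 0`. -/
structure IsSolution (Ω : Set ℂ) (ω : ℂ → ℂ) (w₀ : ℂ) (f : ℂ → ℂ) : Prop where
  /-- `f = h + conj g` with analytic `h` and `g`, `g' = ω h'`, positive Jacobian
  `|h'|² - |g'|²`, and `h'(0) > 0`. -/
  parts : ∃ h g : ℂ → ℂ, DifferentiableOn ℂ h Disk ∧ DifferentiableOn ℂ g Disk ∧
    (∀ z ∈ Disk, f z = h z + conj (g z)) ∧ (∀ z ∈ Disk, deriv g z = ω z * deriv h z) ∧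
    (∀ z ∈ Disk, ‖deriv g z‖ < ‖deriv h z‖) ∧ 0 < (deriv h 0).re ∧ (deriv h 0).im = 0
  /-- `f` is univalent. -/
  inj : Set.InjOn f Disk
  /-- `f` maps the disk onto `Ω`. -/
  image : f '' Disk = Ω
  /-- The value at `0`. -/
  base : f 0 = w₀

/-- **Harmonic maps of the disk with prescribed dilatation are not unique.** -/
theorem result : ∃ (Ω : Set ℂ) (w₀ : ℂ) (ω f₁ f₂ : ℂ → ℂ),
    (∃ x₁ x₂ : ℝ, Ω = {z : ℂ | z.im = 0 ∧ z.re ≤ x₂}ᶜ ∩ {z : ℂ | z.im = Real.pi ∧ z.re ≤ x₁}ᶜ) ∧
    IsOpen Ω ∧ SimplyConnectedSpace Ω ∧ Ω ≠ Set.univ ∧ w₀ ∈ Ω ∧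
    DifferentiableOn ℂ ω Disk ∧ Set.MapsTo ω Disk Disk ∧
    IsSolution Ω ω w₀ f₁ ∧ IsSolution Ω ω w₀ f₂ ∧ ∃ z ∈ Disk, f₁ z ≠ f₂ z := by
  obtain ⟨x₁, x₂, w₀, ω, f₁, f₂, h0, h1, h2, h3, h4, h5⟩ := Pool.Agent.TH221.HM.two_solutions
  refine ⟨Pool.Agent.TH221.HM.Om x₁ x₂, w₀, ω, f₁, f₂, ⟨x₁, x₂, ?_⟩,
    Pool.Agent.TH221.HM.Om_open x₁ x₂, Pool.Agent.TH221.HM.Om_sc x₁ x₂,
    Pool.Agent.TH221.HM.Om_ne_univ x₁ x₂, h0, h1, h2, ⟨h3.parts, h3.inj, h3.image, h3.base⟩,
    ⟨h4.parts, h4.inj, h4.image, h4.base⟩, h5⟩
  ext z
  simp only [Pool.Agent.TH221.HM.Om, Set.mem_ofPred_eq, Set.mem_inter_iff, Set.mem_compl_iff,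
    not_and, not_le]

end Pool.Agent.Results.MP_35dab7_an.NotUnique
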